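import Pool.Agent.Helper49.Girth4.Main4
import Pool.Agent.Helper16.Girth4.Final
import Pool.Agent.Helper51.Girth4.XCert
import Pool.Agent.Helper41.Girth4.NumMain

/-!
# Grünbaum's problem on regular graphs of high girth: the cases k = 4, 5, 6

For every `k ∈ {4, 5, 6}` there is `g ≥ 4` such that every finite graph of maximum degree at most `k`
in which every cycle has length at least `g` is `(k - 1)`-colourable; in particular no `k`-regular
graph of girth at least `g` has chromatic number `k`.

Proof. The main case is maximum degree 4: a random independent set `B`, produced by an 80-round local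
rule, has the property that the probability that a path with `n` edges avoids `B` is at most `C μ^n`
with `3 μ < 1` (transfer matrix bound, evaluated in the kernel). By the local lemma some `B` hits all
paths with `n` edges, so that the complement of `B` is a forest if the girth is larger than `n`.
-/

namespace Pool.Agent.Results.MP_246f82_co.GrunbaumLargeGirth

universe u

theorem result (k : ℕ) (hk : k = 4 ∨ k = 5 ∨ k = 6) :
    ∃ g : ℕ, 4 ≤ g ∧
      ∀ (V : Type u) [Fintype V] (G : SimpleGraph V) [DecidableRel G.Adj],
        (∀ (v : V) (p : G.Walk v v), p.IsCycle → g ≤ p.length) →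
        (G.maxDegree ≤ k → G.Colorable (k - 1)) ∧
        (G.IsRegularOfDegree k → G.chromaticNumber ≠ k) := by
  obtain ⟨g, hg4, h1, h2⟩ := Pool.Agent.Helper16.Girth4.stmtFinal.{u}
    (Pool.Agent.Helper49.Girth4.main4.{u} (Pool.Agent.Helper41.Girth4.Num.stmtCert
      Pool.Agent.Helper51.Girth4.XC.stmtXCert))
  refine ⟨g, hg4, fun V _ G _ hG => ⟨fun hd => ?_, fun hr => h2 k hk V G hr hG⟩⟩
  have hgirth : (g : ℕ∞) ≤ G.egirth := by
    rw [SimpleGraph.le_egirth]
    intro v p hp
    exact_mod_cast hG v p hp
  obtain ⟨c4, c5, c6⟩ := h1 V G hgirth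
  rcases hk with rfl | rfl | rfl
  · exact c4 hd
  · exact c5 hd
  · exact c6 hd

end Pool.Agent.Results.MP_246f82_co.GrunbaumLargeGirth
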